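import Pool.Agent.Helper49.FS.Defs
import Pool.Agent.Helper49.FS.Twist
import Pool.Agent.Helper49.FS.TwistBridge

/-!
# Finite generation of cohomology along extensions with commutative kernels

Let `k` be a field of characteristic `p > 0` and `k → A → B → C → k` an exact sequence of Hopf
algebras over `k` such that `B` is finite-dimensional and `A` is commutative. `B` acts on `A` by
the adjoint action `b ▷ a = ∑ b₁ a S(b₂)`. We show that the FGC property passes from `C` to `B` in
the following two cases.

* (twist) `A` is generated as an algebra by a subspace `U` of primitive elements, stable under the
  action of `B`, and `B` acts on the Frobenius twist `U^(1)` through a semisimple quotient Hopf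
  algebra `D` of `B` (for instance trivially). The action of `B` on `U` itself is arbitrary otherwise.
* (lift) `A = k[x_1, ..., x_n] / (x_i ^ q)` as an algebra, for a power `q > 1` of `p` and elements
  `x_i` of the augmentation ideal of `A`, and the action of `B` on `A` lifts to an action of `B` on the
  algebra `P = k[X_1, ..., X_n] / (X_i ^ q X_j)` which is trivial on `A` and such that `B` acts on the
  kernel of `P → A` (it is spanned by the `X_i ^ q`) through a semisimple quotient Hopf algebra `D`
  of `B` (for instance trivially) and the matrix coefficients of this action are central in the dual
  algebra of `B`.

The theorem is stated for the Hopf algebras `B` reached from `C` by finitely many steps, each of which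
is an extension of one of the two kinds.
-/

open Pool.Agent.Helper49.FS

namespace Pool.Agent.Results.MP_2cde66_al.FrobeniusTwistActions

universe u

/-- Let `B` be a finite-dimensional Hopf algebra reached from `C` by finitely many steps of the
kinds above (for instance, one step). If `C` satisfies the FGC conjecture, then so does `B`. -/
theorem result (k : Type u) [Field k] (B C : Type u) [Ring B] [Ring C] [HopfAlgebra k B]
    [HopfAlgebra k C] [Module.Finite k B] (h : TwistSteps k C B) (hC : FGC k C) : FGC k B :=
  twist_main k B C h hC

end Pool.Agent.Results.MP_2cde66_al.FrobeniusTwistActions
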