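import Pool.Agent.Helper49.FS.Defs
import Pool.Agent.Helper49.FS.Princ
import Pool.Agent.Helper49.FS.PrincBridge

/-!
# Finite generation of cohomology along exact sequences with a principal augmentation ideal

Let `k` be any field and `k → A → B → C → k` an exact sequence of Hopf algebras over `k` such that
`B` is finite-dimensional and the augmentation ideal of `A` is a principal left ideal, `A⁺ = A x`
(for example `A = k[x]/x ^ (p ^ s)`, a restricted enveloping algebra of a torus or of one nilpotent
element, a group algebra of a group with a normal `p`-complement and cyclic Sylow `p`-subgroups, or
a semisimple algebra whose augmentation ideal is generated by an idempotent). Put `X = ι x`. We show: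
if there is a homomorphism of algebras `χ : B → k` such that `X b ∈ (∑ b₁ χ(b₂)) X + B X²` for all
`b` in `B`, and if some power `χ ^ n`, `n` invertible in `k`, is central in the dual algebra of `B`,
then `B` satisfies the FGC conjecture as soon as `C` does. If `x` is nilpotent, then the existence of
`χ` need not be assumed: it is enough that every `χ` of this kind has such a central power.

The definitions used are in `Pool/Agent/Helper49/FS/Defs.lean`, `Twist.lean` and `Princ.lean`:
`FGC k B` says that `H^*(B, k)` is a finitely generated algebra and that `H^*(B, M)` is a finitely
generated module over it for all finite-dimensional `M`; `winding k χ b = ∑ b₁ χ(b₂)`;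
`IsCharOf k X χ` says that for every `b` there is `b'` with `X b = (winding k χ b) X + b' X²`;
`CentralPower k χ` says that for some natural number `n`, invertible in `k`, the convolution power
`χ ^ n` commutes with all linear forms on `B` for the convolution product of Mathlib (`WithConv`);
`HopfExact k ι π` says that `ι` is injective, `π` surjective and the kernel of `π` the left ideal
generated by `ι(A⁺)`; `IsPrincipal k ι` that `A⁺ = A x` for some `x`, and that some `χ` satisfies
`IsCharOf k (ι x) χ` and `CentralPower k χ`, or `x` is nilpotent and every `χ` with
`IsCharOf k (ι x) χ` satisfies `CentralPower k χ`; `PrincipalKernel k A B C` that such `ι`, `π`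
exist; `PrincipalSteps k C B` that `B` is obtained from `C` by finitely many such exact sequences.
-/

open Pool.Agent.Helper49.FS

namespace Pool.Agent.Results.MP_2cde66_al.PrincipalKernels

universe u

/-- Let `B` be a finite-dimensional Hopf algebra obtained from a Hopf algebra `C` by finitely many
exact sequences `k → A → B → B' → k` whose kernels have a principal augmentation ideal `A⁺ = A x` and
whose character `χ` has a central power, of exponent invertible in `k`. If `C` satisfies the FGC
conjecture then so does `B`. -/
theorem result (k : Type u) [Field k] (B C : Type u) [Ring B] [Ring C] [HopfAlgebra k B]
    [HopfAlgebra k C] [Module.Finite k B] (h : PrincipalSteps k C B) (hC : FGC k C) : FGC k B :=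
  principal_main k B C h hC

end Pool.Agent.Results.MP_2cde66_al.PrincipalKernels
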