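import Pool.Agent.Helper56.SS.StepsBridge

/-!
# Finite generation of cohomology along extensions on which `B` acts through a semisimple quotient

Let `k` be any field and `k → A → B → C → k` an exact sequence of Hopf algebras over `k` such that
`B` is finite-dimensional.  We show: if `B` acts on `A`, in the adjoint action
`b ▷ a = ∑ b₁ a S(b₂)`, through a semisimple quotient Hopf algebra `D` of `B`, and `C` satisfies the
FGC conjecture, then `B` satisfies the FGC conjecture.  (Here `A` need not be commutative or
cocommutative, and nothing else is assumed on `A`, `B`, `C`.)  If `D = k` then `A` is central.

The second part of the theorem is the same for the Hopf algebras `B` reached from `C` by finitely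
many steps, in any order, each of which is such an extension, or an extension with semisimple
kernel, or an extension with semisimple quotient, or the passage to a Hopf subalgebra.

The definitions used are in `Pool/Agent/Helper49/FS/Defs.lean`, `Pool/Agent/Helper49/FS/Twist.lean`
and `Pool/Agent/Helper56/SS/StepsSlim.lean`: `trivObj k B` is `k` with the action through the
counit, as an object of `ModuleCat B`; `FGC k B` says that, for the Yoneda product, `Ext^*_B(k, k)`
is a finitely generated algebra (`FGAlg`) and `Ext^*_B(k, M)` is a finitely generated module over it
for all finite-dimensional `M` (`FGMod`): every family of subgroups of the groups `Ext^n` which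
contains `Ext^0(k, k)` (respectively a finite set `T`) and is closed under left multiplication by a
finite set `S` (respectively by all classes in `Ext^*(k, k)`) is everything;
`adR k x b = ∑ b₁ x S(b₂)` is the adjoint action;
`HopfExact k ι π` says that `ι : A → B` is injective, `π : B → C` surjective and that the kernel of
`π` is the left ideal generated by `ι(A⁺)`; `ActsThrough k ι q` says that `q : B → D` is surjective
and that `adR k (ι a) b = 0` for all `b` with `q b = 0`; `ExactActing k A B C D` says that such
`ι`, `π`, `q` exist; `Steps k C B` says that `B` is reached from `C` by finitely many (possibly zero)
steps of the four kinds above.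
-/

open Pool.Agent.Helper49.FS Pool.Agent.Helper56.SSlim

namespace Pool.Agent.Results.MP_2cde66_al.SemisimpleQuotientAction

universe u

/-- Let `k → A → B → C → k` be an exact sequence of Hopf algebras over a field `k` such that `B` is
finite-dimensional and acts on `A`, in the adjoint action, through a semisimple quotient Hopf algebra
`D`. If `C` satisfies the FGC conjecture, then so does `B`. The same holds for every
finite-dimensional Hopf algebra `B` reached from `C` by finitely many such steps, extensions with
semisimple kernel, extensions with semisimple quotient and passages to Hopf subalgebras. -/
theorem result (k : Type u) [Field k] (A B C D : Type u) [Ring A] [Ring B] [Ring C] [Ring D]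
    [HopfAlgebra k A] [HopfAlgebra k B] [HopfAlgebra k C] [HopfAlgebra k D] [Module.Finite k B]
    [IsSemisimpleRing D] (hC : FGC k C) :
    (ExactActing k A B C D → FGC k B) ∧ (Steps k C B → FGC k B) :=
  ⟨fun e => fgc_of_steps (Steps.act A B C D e Steps.refl) hC, fun h => fgc_of_steps h hC⟩

end Pool.Agent.Results.MP_2cde66_al.SemisimpleQuotientAction
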