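import Pool.Agent.Helper49.FS.Defs
import Pool.Agent.Helper49.FS.Unip
import Pool.Agent.Helper49.FS.Fgh

/-!
# Finite generation of cohomology along extensions of Hopf algebras with unipotent action

Let `k` be any field and `k → A → B → C → k` an exact sequence of Hopf algebras over `k` such that
`B` is finite-dimensional, the dual algebra of `A` is local (equivalently, `A` is connected as a
coalgebra), and `B` acts on `A` in a unipotent way by the adjoint action (for example, `B` is
local). We show: if `C` satisfies the FGC conjecture then `B` satisfies the FGC conjecture. None of
`A`, `B`, `C` has to be commutative or cocommutative.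

The definitions used are in `Pool/Agent/Helper49/FS/Defs.lean`, `Twist.lean` and `Unip.lean`:
`FGC k B` says that `H^*(B, k)` is a finitely generated algebra and that `H^*(B, M)` is a finitely
generated module over it for all finite-dimensional `M`; `adR k x b = ∑ b₁ x S(b₂)` is the adjoint
action; `HopfExact k ι π` says that `ι` is injective, `π` surjective and the kernel of `π` the left
ideal generated by `ι(A⁺)`; `UnipotentAct k ι` says that `ι(A)` is stable under the adjoint action and
that, for some `N`, all products of `N` elements of `B⁺` act by zero on `ι(A)`.
`WithConv (A →ₗ[k] k)` is Mathlib's convolution algebra: its product is `f * g : a ↦ ∑ f(a₁) g(a₂)`,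
so it is the dual algebra of the coalgebra `A`.
-/

open Pool.Agent.Helper49.FS

namespace Pool.Agent.Results.MP_2cde66_al.UnipotentExtensions

universe u

/-- Let `k → A → B → C → k` be an exact sequence of Hopf algebras, `B` finite-dimensional, such that
the dual algebra of `A` is local and the adjoint action of `B` on `A` is unipotent. If `C` satisfies
the FGC conjecture, then so does `B`. -/
theorem result (k : Type u) [Field k] (A B C : Type u) [Ring A] [Ring B] [Ring C] [HopfAlgebra k A]
    [HopfAlgebra k B] [HopfAlgebra k C] [Module.Finite k B] (h : UnipotentExact k A B C)
    (hA : IsLocalRing (WithConv (A →ₗ[k] k))) (hC : FGC k C) : FGC k B :=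
  fgc_of_unipotent h hA hC

end Pool.Agent.Results.MP_2cde66_al.UnipotentExtensions
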